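import Pool.Agent.MP_bf2f06_lc.Mg.Main

namespace Pool.Agent.Results.MP_bf2f06_lc.EqualsFc

open Pool.Agent.MP_bf2f06_lc

theorem result {V : Type} [Fintype V] [DecidableEq V] (G : SimpleGraph V) (hG : G.Connected)
    (hV : 2 ≤ Fintype.card V) (static : Bool) :
    Filter.Tendsto (fun n : ℕ => (f G static n : ℝ) / n) Filter.atTop (nhds (fc G)) :=
  main G hG hV static

end Pool.Agent.Results.MP_bf2f06_lc.EqualsFc
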